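import Pool.Agent.H74.LI.Targets

/-! Functional equation of one primitive Dirichlet `L`-function, and its zeros off the real axis
(modules LF, ZE of MP_9f0eeb_nt). -/

set_option autoImplicit false

open Complex MeasureTheory Set Metric

namespace Pool.Agent.H15.LI

open Pool.Agent.H23.GLH Pool.Agent.H74.LI DirichletCharacter

lemma LF_aux {N : ℕ} [NeZero N] (χ : DirichletCharacter ℂ N) (hχ : χ.IsPrimitive) :
    ∃ κ : ℝ, (κ = 0 ∨ κ = 1) ∧ ∀ w : ℂ, w.im ≠ 0 →
      χ.LFunction w * (Gammaℂ w * Complex.cos (Real.pi * (w - κ) / 2)) =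
        (rootNumber χ⁻¹)⁻¹ * cexp ((1 / 2 - w) * Real.log N) * (χ⁻¹).LFunction (1 - w) := by
  have hN : (N : ℂ) ≠ 0 := Nat.cast_ne_zero.mpr (NeZero.ne N)
  have hNpos : (0 : ℝ) < N := Nat.cast_pos.mpr (NeZero.pos N)
  have hW : rootNumber χ⁻¹ ≠ 0 := by
    intro h
    have := norm_rootNumber χ⁻¹ (isPrimitive_inv χ hχ)
    rw [h, norm_zero] at this
    exact zero_ne_one this
  -- powers of N
  have hpow : ∀ w : ℂ, cexp ((1 / 2 - w) * Real.log N) * (N : ℂ) ^ (w - 1 / 2) = 1 := by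
    intro w
    have h1 : (N : ℂ) ^ (w - 1 / 2) = cexp ((w - 1 / 2) * Real.log N) := by
      rw [cpow_def_of_ne_zero hN, ← natCast_log, mul_comm]
    rw [h1, ← Complex.exp_add]
    have : (1 / 2 - w) * (Real.log N : ℂ) + (w - 1 / 2) * Real.log N = 0 := by ring
    rw [this, Complex.exp_zero]
  have key : ∀ w : ℂ, w.im ≠ 0 → (χ⁻¹).LFunction (1 - w) * gammaFactor χ⁻¹ (1 - w) =
      (N : ℂ) ^ (w - 1 / 2) * rootNumber χ⁻¹ * (χ.LFunction w * gammaFactor χ w) := by
    intro w hw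
    have hw0 : w ≠ 0 := by rintro rfl; simp at hw
    have h1w : 1 - w ≠ 0 := by
      intro h
      have := congrArg Complex.im h
      simp at this
      exact hw this
    have hfe := (isPrimitive_inv χ hχ).completedLFunction_one_sub w
    rw [inv_inv] at hfe
    have h1 := LFunction_eq_completed_div_gammaFactor χ⁻¹ (1 - w) (Or.inl h1w)
    have h2 := LFunction_eq_completed_div_gammaFactor χ w (Or.inl hw0)
    have hg : ∀ (ψ : DirichletCharacter ℂ N) (z : ℂ), z.im ≠ 0 → gammaFactor ψ z ≠ 0 := by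
      intro ψ z hz
      rcases ψ.even_or_odd with he | ho
      · rw [he.gammaFactor_def, Ne, Gammaℝ_eq_zero_iff]
        rintro ⟨n, hn⟩
        apply hz
        rw [hn]; simp
      · rw [ho.gammaFactor_def, Ne, Gammaℝ_eq_zero_iff]
        rintro ⟨n, hn⟩
        apply hz
        have := congrArg Complex.im hn
        simpa using this
    rw [h1, h2, div_mul_cancel₀ _ (hg _ _ (by simpa using hw)), div_mul_cancel₀ _ (hg _ _ hw), hfe]
  have hsn : ∀ w : ℂ, w.im ≠ 0 → ∀ n : ℕ, w ≠ -n := by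
    intro w hw n h
    apply hw
    rw [h]; simp
  rcases χ.even_or_odd with he | ho
  · have he' : (χ⁻¹).Even := by
      rw [DirichletCharacter.Even] at he ⊢
      rw [MulChar.inv_apply_eq_inv', he, inv_one]
    refine ⟨0, Or.inl rfl, fun w hw => ?_⟩
    have hk := key w hw
    rw [he.gammaFactor_def, he'.gammaFactor_def] at hk
    have hG1 : Gammaℝ (1 - w) ≠ 0 := by
      rw [Ne, Gammaℝ_eq_zero_iff]
      rintro ⟨n, hn⟩
      apply hw
      have := congrArg Complex.im hn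
      simpa using this
    have hG0 : Gammaℝ w ≠ 0 := by
      rw [Ne, Gammaℝ_eq_zero_iff]
      rintro ⟨n, hn⟩
      apply hw
      rw [hn]; simp
    have hinv := inv_Gammaℝ_one_sub (hsn w hw)
    have h3 : Gammaℂ w * Complex.cos (Real.pi * (w - (0 : ℝ)) / 2) = Gammaℝ w / Gammaℝ (1 - w) := by
      rw [div_eq_mul_inv (Gammaℝ w), hinv]
      simp only [ofReal_zero, sub_zero]
      field_simp
    rw [h3]
    have hp := hpow w
    have : χ.LFunction w * (Gammaℝ w / Gammaℝ (1 - w)) =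
        (rootNumber χ⁻¹)⁻¹ * (cexp ((1 / 2 - w) * Real.log N) * (N : ℂ) ^ (w - 1 / 2)) *
          (rootNumber χ⁻¹ * (χ.LFunction w * Gammaℝ w)) / Gammaℝ (1 - w) := by
      rw [hp]; field_simp
    rw [this]
    have h4 : (rootNumber χ⁻¹)⁻¹ * (cexp ((1 / 2 - w) * Real.log N) * (N : ℂ) ^ (w - 1 / 2)) *
          (rootNumber χ⁻¹ * (χ.LFunction w * Gammaℝ w)) / Gammaℝ (1 - w) =
        (rootNumber χ⁻¹)⁻¹ * cexp ((1 / 2 - w) * Real.log N) * ((N : ℂ) ^ (w - 1 / 2) *
          rootNumber χ⁻¹ * (χ.LFunction w * Gammaℝ w)) / Gammaℝ (1 - w) := by ring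
    rw [h4, ← hk]
    field_simp
  · have ho' : (χ⁻¹).Odd := by
      rw [DirichletCharacter.Odd] at ho ⊢
      rw [MulChar.inv_apply_eq_inv', ho, inv_neg, inv_one]
    refine ⟨1, Or.inr rfl, fun w hw => ?_⟩
    have hk := key w hw
    rw [ho.gammaFactor_def, ho'.gammaFactor_def, show (1 : ℂ) - w + 1 = 2 - w by ring] at hk
    have hG1 : Gammaℝ (2 - w) ≠ 0 := by
      rw [Ne, Gammaℝ_eq_zero_iff]
      rintro ⟨n, hn⟩
      apply hw
      have := congrArg Complex.im hn
      simpa using this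
    have hG0 : Gammaℝ (w + 1) ≠ 0 := by
      rw [Ne, Gammaℝ_eq_zero_iff]
      rintro ⟨n, hn⟩
      apply hw
      have := congrArg Complex.im hn
      simpa using this
    have hinv := inv_Gammaℝ_two_sub (hsn w hw)
    have h3 : Gammaℂ w * Complex.cos (Real.pi * (w - (1 : ℝ)) / 2) =
        Gammaℝ (w + 1) / Gammaℝ (2 - w) := by
      have hc : Complex.cos (Real.pi * (w - (1 : ℝ)) / 2) = Complex.sin (Real.pi * w / 2) := by
        rw [← Complex.cos_sub_pi_div_two]
        congr 1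
        push_cast
        ring
      rw [hc, div_eq_mul_inv (Gammaℝ (w + 1)), hinv]
      field_simp
    rw [h3]
    have hp := hpow w
    have : χ.LFunction w * (Gammaℝ (w + 1) / Gammaℝ (2 - w)) =
        (rootNumber χ⁻¹)⁻¹ * (cexp ((1 / 2 - w) * Real.log N) * (N : ℂ) ^ (w - 1 / 2)) *
          (rootNumber χ⁻¹ * (χ.LFunction w * Gammaℝ (w + 1))) / Gammaℝ (2 - w) := by
      rw [hp]; field_simp
    rw [this]
    have h4 : (rootNumber χ⁻¹)⁻¹ * (cexp ((1 / 2 - w) * Real.log N) * (N : ℂ) ^ (w - 1 / 2)) *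
          (rootNumber χ⁻¹ * (χ.LFunction w * Gammaℝ (w + 1))) / Gammaℝ (2 - w) =
        (rootNumber χ⁻¹)⁻¹ * cexp ((1 / 2 - w) * Real.log N) * ((N : ℂ) ^ (w - 1 / 2) *
          rootNumber χ⁻¹ * (χ.LFunction w * Gammaℝ (w + 1))) / Gammaℝ (2 - w) := by ring
    rw [h4, ← hk]
    field_simp

theorem lf : T_LF := by
  intro π
  have := π.q_ne
  obtain ⟨κ, hκ, h⟩ := LF_aux π.χ π.prim
  refine ⟨(rootNumber π.χ⁻¹)⁻¹, κ, ?_, hκ, ?_⟩
  · rw [norm_inv, norm_rootNumber _ (isPrimitive_inv π.χ π.prim), inv_one]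
  · intro w hw
    exact h w hw

theorem ze : T_zero := by
  intro π ρ him hz
  have := π.q_ne
  have hne1 : ∀ z : ℂ, z.im ≠ 0 → z ≠ 1 := by
    intro z hz h
    apply hz
    rw [h]; simp
  have hlt : ρ.re < 1 := by
    by_contra hge
    rw [not_lt] at hge
    exact DirichletCharacter.LFunction_ne_zero_of_one_le_re π.χ (Or.inr (hne1 ρ him)) hge hz
  refine ⟨?_, hlt⟩
  by_contra hle
  rw [not_lt] at hle
  obtain ⟨ε, κ, hε, -, h⟩ := lf π
  have h1 := h ρ him
  rw [hz, zero_mul] at h1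
  have him' : (1 - ρ).im ≠ 0 := by simpa using him
  have hL : (bar π).L (1 - ρ) ≠ 0 :=
    DirichletCharacter.LFunction_ne_zero_of_one_le_re π.χ⁻¹ (Or.inr (hne1 _ him'))
      (by simp only [sub_re, one_re]; linarith)
  have hε0 : ε ≠ 0 := by
    intro h0
    rw [h0, norm_zero] at hε
    exact zero_ne_one hε
  exact mul_ne_zero (mul_ne_zero hε0 (Complex.exp_ne_zero _)) hL h1.symm

end Pool.Agent.H15.LI
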