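import Pool.Agent.H74.LI.Targets

/-! Division of analytic functions when the orders of vanishing permit it (module QU of
MP_9f0eeb_nt). -/

set_option autoImplicit false

open Complex MeasureTheory Set Metric Filter Topology

namespace Pool.Agent.H15.LI

open Pool.Agent.H74.LI

theorem qu : T_quot := by
  classical
  intro U V D N hU hV hVc _ hUV hD hN hp hord
  obtain ⟨p, hpV, hp0⟩ := hp
  have hDa : AnalyticOnNhd ℂ D V := fun z hz => hD.analyticAt (hV.mem_nhds hz)
  have hNa : AnalyticOnNhd ℂ N V := fun z hz => hN.analyticAt (hV.mem_nhds hz)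
  set G : ℂ → ℂ := fun s => if D s ≠ 0 then N s / D s else
    limUnder (𝓝[≠] s) (fun z => N z / D z) with hG
  -- local description
  have hloc : ∀ w ∈ U, ∃ h : ℂ → ℂ, AnalyticAt ℂ h w ∧ (∀ᶠ z in 𝓝 w, G z = h z) ∧
      D w * h w = N w := by
    intro w hw
    have hwc : w ∈ closure U := subset_closure hw
    have hwV : w ∈ V := hUV hwc
    have hfin : analyticOrderAt D w ≠ ⊤ := by
      intro htop
      rw [analyticOrderAt_eq_top] at htop
      have := hDa.eqOn_zero_of_preconnected_of_eventuallyEq_zero hVc hwV htop
      exact hp0 (this hpV)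
    obtain ⟨g0, hg0a, hg0, hDg⟩ := (hDa w hwV).analyticOrderAt_ne_top.mp hfin
    set n := analyticOrderNatAt D w with hn
    have hle : (n : ℕ∞) ≤ analyticOrderAt N w := by
      by_cases hDw : D w = 0
      · have h1 := hord w hwc hDw
        rw [← Nat.cast_analyticOrderNatAt hfin] at h1
        exact h1
      · have : analyticOrderAt D w = 0 := by
          rw [(hDa w hwV).analyticOrderAt_eq_zero]; exact hDw
        have : n = 0 := by
          rw [hn, analyticOrderNatAt, this]; rfl
        rw [this]; simp
    obtain ⟨g1, hg1a, hNg⟩ := (natCast_le_analyticOrderAt (hNa w hwV)).mp hle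
    have hDw : D w = (w - w) ^ n * g0 w := by
      have := hDg.self_of_nhds
      simpa [smul_eq_mul] using this
    have hNw : N w = (w - w) ^ n * g1 w := by
      have := hNg.self_of_nhds
      simpa [smul_eq_mul] using this
    have hg0ne : ∀ᶠ z in 𝓝 w, g0 z ≠ 0 := hg0a.continuousAt.eventually_ne hg0
    -- away from `w`
    have haway : ∀ᶠ z in 𝓝 w, z ≠ w → D z ≠ 0 ∧ N z / D z = g1 z / g0 z := by
      filter_upwards [hDg, hNg, hg0ne] with z h1 h2 h3 h4
      have hz : z - w ≠ 0 := sub_ne_zero.mpr h4
      have hzn : (z - w) ^ n ≠ 0 := pow_ne_zero _ hz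
      rw [smul_eq_mul] at h1 h2
      rw [h1, h2]
      refine ⟨mul_ne_zero hzn h3, ?_⟩
      rw [mul_div_mul_left _ _ hzn]
    refine ⟨fun z => g1 z / g0 z, hg1a.div hg0a hg0, ?_, ?_⟩
    · have hGw : G w = g1 w / g0 w := by
        by_cases hDw0 : D w = 0
        · have hlim : Tendsto (fun z => N z / D z) (𝓝[≠] w) (𝓝 (g1 w / g0 w)) := by
            have hc : Tendsto (fun z => g1 z / g0 z) (𝓝[≠] w) (𝓝 (g1 w / g0 w)) :=
              ((hg1a.continuousAt.div hg0a.continuousAt hg0).tendsto).mono_left nhdsWithin_le_nhds
            refine hc.congr' ?_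
            have := eventually_nhdsWithin_of_eventually_nhds (s := {w}ᶜ) haway
            filter_upwards [this, self_mem_nhdsWithin] with z hz1 hz2
            exact ((hz1 hz2).2).symm
          have : G w = limUnder (𝓝[≠] w) (fun z => N z / D z) := by
            simp only [hG]
            rw [if_neg (by simpa using hDw0)]
          rw [this]
          exact hlim.limUnder_eq
        · have hn0 : n = 0 := by
            by_contra hn0
            apply hDw0
            rw [hDw, sub_self, zero_pow hn0, zero_mul]
          have : G w = N w / D w := by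
            simp only [hG]
            rw [if_pos hDw0]
          rw [this, hDw, hNw, hn0, pow_zero, one_mul, one_mul]
      filter_upwards [haway] with z hz
      by_cases hzw : z = w
      · rw [hzw]; exact hGw
      · have h1 := hz hzw
        have : G z = N z / D z := by
          simp only [hG]
          rw [if_pos h1.1]
        rw [this, h1.2]
    · show D w * (g1 w / g0 w) = N w
      rw [hDw, hNw]
      field_simp
  refine ⟨G, ?_, ?_⟩
  · intro w hw
    obtain ⟨h, ha, he, -⟩ := hloc w hw
    have : G =ᶠ[𝓝 w] h := he
    exact (ha.differentiableAt.congr_of_eventuallyEq this).differentiableWithinAt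
  · intro w hw
    obtain ⟨h, ha, he, hm⟩ := hloc w hw
    rw [he.self_of_nhds]
    exact hm

end Pool.Agent.H15.LI
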